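import Pool.Agent.Results.MP_8b7544_co.RadiusTwo

/-!
# Super edge-magic labelings of trees of radius two

Let `v` be a vertex of a finite tree such that all vertices have distance at most two from `v`, let `k` be the
number of the neighbours of `v` with neighbours at distance two from `v`, let `n` be the number of the
vertices at distance two, and let `q` be the number of edges. If `(k + 1) n + 2 k ≤ 2 q`, that is, if `v` is
adjacent to at least `(k - 1) n / 2` leaves, then the tree is super edge-magic.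

Proof. The labels of the vertices are written as the integers from `-S` to `q - S`, where `S` is the sum of the
labels of the parents of the vertices at distance two. Label `v` by `0`, the `k` neighbours by `1, ..., k` in one of
two opposite orders, and the vertices at distance two by the negative partial sums of the labels of their
parents. The sums at these edges are the labels used up to now, without `-S`. The leaves at `v` get the other
labels, and the sums are the integers from `-S + 1` to `q - S`.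
-/

set_option autoImplicit false

open Finset

namespace Pool.Agent.Results.MP_138ac9_co.RadiusTwo

theorem main {V : Type} [Fintype V] [DecidableEq V] (v : V) (par : V → V)
    (q : ℕ) (hc : Fintype.card V = q + 1) (Y X : Finset V) (hvY : v ∉ Y) (hvX : v ∉ X)
    (hYX : ∀ x ∈ X, x ∉ Y) (hX : ∀ x ∈ X, par x ∈ Y) (hn : ∀ x, x ≠ v → x ∉ X → par x = v)
    (s : V → ℕ) (k : ℕ) (hs : ∀ y ∈ Y, 1 ≤ s y ∧ s y ≤ k) (hinj : ∀ x ∈ Y, ∀ y ∈ Y, s x = s y → x = y)
    (hS : ∑ x ∈ X, s (par x) + k ≤ q) :
    ∃ (b : ℕ) (f : V → ℤ), b ≤ q ∧ (∀ x, -b ≤ f x ∧ f x ≤ q - b) ∧ (∀ x y, f x = f y → x = y) ∧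
      (∀ x, x ≠ v → -b + 1 ≤ f x + f (par x) ∧ f x + f (par x) ≤ q - b) ∧
      ∀ x y, x ≠ v → y ≠ v → f x + f (par x) = f y + f (par y) → x = y := by
  classical
  obtain ⟨c, c', h1, h2, h3, h4, h5, h6⟩ :=
    Pool.Agent.Results.MP_8b7544_co.RadiusTwo.chain (fun x => s (par x)) X fun x hx => (hs _ (hX x hx)).1
  obtain ⟨b, hb⟩ : ∃ b, b = ∑ x ∈ X, s (par x) := ⟨_, rfl⟩
  simp only [← hb] at h2 h5 hS
  have hx : ∀ x ∈ X, c' x < b ∧ c x ≤ b ∧ c x = c' x + s (par x) ∧ 1 ≤ s (par x) := by
    intro x hx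
    have := h1 x hx
    have := h2 x hx
    have := hs _ (hX x hx)
    omega
  let U : Finset ℤ := X.image (fun x => -(c' x : ℤ)) ∪ Y.image fun y => (s y : ℤ)
  have hUc : U.card = X.card + Y.card := by
    rw [card_union_of_disjoint, card_image_of_injOn, card_image_of_injOn]
    · intro x hx' y hy' h
      simp only at h
      exact hinj x hx' y hy' (by omega)
    · intro x hx' y hy' h
      simp only at h
      exact h4 x hx' y hy' (by omega)
    · rw [Finset.disjoint_left]
      intro z hz hz'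
      obtain ⟨x, hx', rfl⟩ := mem_image.1 hz
      obtain ⟨y, hy, h⟩ := mem_image.1 hz'
      have := hs y hy
      omega
  have hU : U ⊆ Icc (-(b : ℤ) + 1) (q - b) := by
    intro z hz
    rw [mem_Icc]
    rcases mem_union.1 hz with hz | hz
    · obtain ⟨x, hx', rfl⟩ := mem_image.1 hz
      have := hx x hx'
      omega
    · obtain ⟨y, hy, rfl⟩ := mem_image.1 hz
      have := hs y hy
      omega
  let Z : Finset V := insert v (Y ∪ X)
  have hvZ : v ∉ Y ∪ X := by
    rw [mem_union]; tauto
  have hdis : Disjoint Y X := by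
    rw [Finset.disjoint_left]; exact fun x h1 h2 => hYX x h2 h1
  have hcard : (univ \ Z).card = (Icc (-(b : ℤ) + 1) (q - b) \ U).card := by
    rw [card_sdiff_of_subset (subset_univ _), card_sdiff_of_subset hU, card_insert_of_notMem hvZ,
      card_union_of_disjoint hdis, hUc, Int.card_Icc, card_univ, hc]
    omega
  obtain ⟨e⟩ : Nonempty ((univ \ Z : Finset V) ≃ (Icc (-(b : ℤ) + 1) (q - b) \ U : Finset ℤ)) :=
    ⟨Finset.equivOfCardEq hcard⟩
  let f : V → ℤ := fun x => if x = v then 0 else if x ∈ Y then (s x : ℤ) else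
    if x ∈ X then -(c x : ℤ) else if h : x ∈ univ \ Z then (e ⟨x, h⟩ : ℤ) else 0
  have fv : f v = 0 := if_pos rfl
  have fY : ∀ x ∈ Y, f x = s x := fun x hx => by
    have : x ≠ v := fun h => hvY (h ▸ hx)
    simp only [f, if_neg this, if_pos hx]
  have fX : ∀ x ∈ X, f x = -(c x : ℤ) := fun x hx => by
    have : x ≠ v := fun h => hvX (h ▸ hx)
    simp only [f, if_neg this, if_neg (hYX x hx), if_pos hx]
  have fL : ∀ x (h : x ∈ univ \ Z), f x = (e ⟨x, h⟩ : ℤ) := fun x h => by
    have h' := (mem_sdiff.1 h).2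
    simp only [Z, mem_insert, mem_union, not_or] at h'
    simp only [f, if_neg h'.1, if_neg h'.2.1, if_neg h'.2.2, dif_pos h]
  have cases : ∀ x, x = v ∨ x ∈ Y ∨ x ∈ X ∨ x ∈ univ \ Z := by
    intro x
    by_cases h : x ∈ Z
    · simp only [Z, mem_insert, mem_union] at h
      tauto
    · exact Or.inr (Or.inr (Or.inr (mem_sdiff.2 ⟨mem_univ _, h⟩)))
  have pv : ∀ x, x ≠ v → x ∉ X → f x + f (par x) = f x := fun x h1 h2 => by
    rw [hn x h1 h2, fv, add_zero]
  have pX : ∀ x ∈ X, f x + f (par x) = -(c' x : ℤ) := fun x h => by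
    rw [fX x h, fY _ (hX x h), (hx x h).2.2.1]; push_cast; ring
  have LX : ∀ x ∈ univ \ Z, x ∉ X := fun x h h' => by
    have h'' := (mem_sdiff.1 h).2
    simp only [Z, mem_insert, mem_union, not_or] at h''
    exact h''.2.2 h'
  have eL : ∀ x (h : x ∈ univ \ Z), -(b : ℤ) + 1 ≤ (e ⟨x, h⟩ : ℤ) ∧ (e ⟨x, h⟩ : ℤ) ≤ q - b ∧
      (∀ y ∈ Y, (e ⟨x, h⟩ : ℤ) ≠ s y) ∧ (∀ y ∈ X, (e ⟨x, h⟩ : ℤ) ≠ -(c' y : ℤ)) ∧
      (∀ y ∈ X, (e ⟨x, h⟩ : ℤ) ≠ -(c y : ℤ)) ∧ (e ⟨x, h⟩ : ℤ) ≠ 0 := by
    intro x h
    have h7 := mem_sdiff.1 (e ⟨x, h⟩).2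
    have h8 := mem_Icc.1 h7.1
    have hYY : ∀ y ∈ Y, (e ⟨x, h⟩ : ℤ) ≠ s y := fun y hy h9 =>
      h7.2 (mem_union_right _ (h9 ▸ mem_image_of_mem (fun y => (s y : ℤ)) hy))
    have hXX : ∀ y ∈ X, (e ⟨x, h⟩ : ℤ) ≠ -(c' y : ℤ) := fun y hy h9 =>
      h7.2 (mem_union_left _ (h9 ▸ mem_image_of_mem (fun y => -(c' y : ℤ)) hy))
    refine ⟨h8.1, h8.2, hYY, hXX, ?_, ?_⟩
    · intro y hy
      rcases h5 y hy with h9 | ⟨z, hz, h9⟩
      · omega
      · rw [← h9]
        exact hXX z hz
    · rcases h6 with h6 | ⟨y, hy, h6⟩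
      · have : b = 0 := by rw [hb, h6, sum_empty]
        omega
      · have := hXX y hy
        omega
  refine ⟨b, f, by omega, ?_, ?_, ?_, ?_⟩
  · intro x
    rcases cases x with rfl | h | h | h
    · rw [fv]; omega
    · rw [fY x h]; have := hs x h; omega
    · rw [fX x h]; have := hx x h; omega
    · rw [fL x h]; have := eL x h; omega
  · intro x y h
    rcases cases x with hx1 | hx1 | hx1 | hx1 <;> rcases cases y with hy1 | hy1 | hy1 | hy1
    · rw [hx1, hy1]
    · rw [hx1, fv, fY y hy1] at h; have := hs y hy1; omega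
    · rw [hx1, fv, fX y hy1] at h; have := hx y hy1; omega
    · rw [hx1, fv, fL y hy1] at h; have := eL y hy1; omega
    · rw [hy1, fv, fY x hx1] at h; have := hs x hx1; omega
    · rw [fY x hx1, fY y hy1] at h; exact hinj x hx1 y hy1 (by omega)
    · rw [fY x hx1, fX y hy1] at h; have := hx y hy1; have := hs x hx1; omega
    · rw [fY x hx1, fL y hy1] at h; have := (eL y hy1).2.2.1 x hx1; omega
    · rw [hy1, fv, fX x hx1] at h; have := hx x hx1; omega
    · rw [fY y hy1, fX x hx1] at h; have := hx x hx1; have := hs y hy1; omega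
    · rw [fX x hx1, fX y hy1] at h; exact h3 x hx1 y hy1 (by omega)
    · rw [fX x hx1, fL y hy1] at h; have := (eL y hy1).2.2.2.2.1 x hx1; omega
    · rw [hy1, fv, fL x hx1] at h; have := eL x hx1; omega
    · rw [fY y hy1, fL x hx1] at h; have := (eL x hx1).2.2.1 y hy1; omega
    · rw [fX y hy1, fL x hx1] at h; have := (eL x hx1).2.2.2.2.1 y hy1; omega
    · rw [fL x hx1, fL y hy1] at h
      have := e.injective (Subtype.ext h)
      exact congrArg Subtype.val this
  · intro x hxv
    rcases (cases x).resolve_left hxv with h | h | h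
    · rw [pv x hxv fun h' => hYX x h' h, fY x h]; have := hs x h; omega
    · rw [pX x h]; have := hx x h; omega
    · rw [pv x hxv (LX x h), fL x h]; have := eL x h; omega
  · intro x y hxv hyv h
    rcases (cases x).resolve_left hxv with hx1 | hx1 | hx1 <;> rcases (cases y).resolve_left hyv with hy1 | hy1 | hy1
    · rw [pv x hxv fun h' => hYX x h' hx1, fY x hx1, pv y hyv fun h' => hYX y h' hy1, fY y hy1] at h
      exact hinj x hx1 y hy1 (by omega)
    · rw [pv x hxv fun h' => hYX x h' hx1, fY x hx1, pX y hy1] at h; have := hs x hx1; omega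
    · rw [pv x hxv fun h' => hYX x h' hx1, fY x hx1, pv y hyv (LX y hy1), fL y hy1] at h
      have := (eL y hy1).2.2.1 x hx1; omega
    · rw [pX x hx1, pv y hyv fun h' => hYX y h' hy1, fY y hy1] at h; have := hs y hy1; omega
    · rw [pX x hx1, pX y hy1] at h; exact h4 x hx1 y hy1 (by omega)
    · rw [pX x hx1, pv y hyv (LX y hy1), fL y hy1] at h; have := (eL y hy1).2.2.2.1 x hx1; omega
    · rw [pv y hyv fun h' => hYX y h' hy1, fY y hy1, pv x hxv (LX x hx1), fL x hx1] at h
      have := (eL x hx1).2.2.1 y hy1; omega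
    · rw [pX y hy1, pv x hxv (LX x hx1), fL x hx1] at h; have := (eL x hx1).2.2.2.1 y hy1; omega
    · rw [pv x hxv (LX x hx1), pv y hyv (LX y hy1), fL x hx1, fL y hy1] at h
      have := e.injective (Subtype.ext h)
      exact congrArg Subtype.val this

/-- **Trees of radius two with enough leaves at the centre are super edge-magic.** Let all vertices of the tree `G` have
distance at most two from `v`, let `k` be the number of the neighbours of `v` which have a neighbour at distance
two from `v`, `n` the number of the vertices at distance two from `v`, and `q` the number of edges. If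
`(k + 1) n + 2 k ≤ 2 q`, then there is an injective labelling `F` of the vertices and edges by the integers
from `1` to `2 |V| - 1` (the number of all vertices and edges) with constant sums at the edges, such that
the labels of the vertices are at most `|V|`. -/
theorem result {V : Type} [Fintype V] (G : SimpleGraph V) (hG : G.IsTree) (v : V)
    (hv : ∀ x, G.dist v x ≤ 2)
    (h : ({y : V | G.Adj v y ∧ ∃ x, G.Adj y x ∧ G.dist v x = 2}.ncard + 1) * {x : V | G.dist v x = 2}.ncard +
      2 * {y : V | G.Adj v y ∧ ∃ x, G.Adj y x ∧ G.dist v x = 2}.ncard ≤ 2 * (Fintype.card V - 1)) :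
    ∃ (F : V ⊕ G.edgeSet → ℕ) (K : ℕ), Function.Injective F ∧
      (∀ z, 1 ≤ F z ∧ F z ≤ 2 * Fintype.card V - 1) ∧ (∀ x, F (Sum.inl x) ≤ Fintype.card V) ∧
      ∀ (u w : V) (h : G.Adj u w), F (Sum.inl u) + F (Sum.inr ⟨s(u, w), h⟩) + F (Sum.inl w) = K := by
  classical
  obtain ⟨par, hr⟩ := Pool.Agent.H115R2.exists_root G hG v
  let X : Finset V := univ.filter fun x => G.dist v x = 2
  let Y : Finset V := X.image par
  have hd : ∀ x, x ≠ v → G.dist v x = G.dist v (par x) + 1 := fun x hx => hr.dist x hx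
  have hvv : G.dist v v = 0 := SimpleGraph.dist_self
  have memX : ∀ x, x ∈ X ↔ G.dist v x = 2 := fun x => by simp [X]
  have hXv : ∀ x ∈ X, x ≠ v := fun x hx h => by
    have := (memX x).1 hx
    rw [h, hvv] at this
    omega
  have hp1 : ∀ x ∈ X, G.dist v (par x) = 1 := fun x hx => by
    have := hd x (hXv x hx)
    have := (memX x).1 hx
    omega
  have hY1 : ∀ y ∈ Y, G.dist v y = 1 := fun y hy => by
    obtain ⟨x, hx, rfl⟩ := mem_image.1 hy
    exact hp1 x hx
  have hXc : X.card = {x : V | G.dist v x = 2}.ncard := by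
    rw [← Set.ncard_coe_finset]
    congr 1
    ext x
    simp [X]
  have hYc : Y.card ≤ {y : V | G.Adj v y ∧ ∃ x, G.Adj y x ∧ G.dist v x = 2}.ncard := by
    rw [← Set.ncard_coe_finset]
    refine Set.ncard_le_ncard ?_ (Set.toFinite _)
    intro y hy
    obtain ⟨x, hx, rfl⟩ := mem_image.1 (mem_coe.1 hy)
    exact ⟨SimpleGraph.dist_eq_one_iff_adj.1 (hp1 x hx), x, hr.adj x (hXv x hx), (memX x).1 hx⟩
  have hV : 1 ≤ Fintype.card V := Fintype.card_pos_iff.2 ⟨v⟩
  obtain ⟨s, hs1, hs2, hs3⟩ :=
    Pool.Agent.Results.MP_9ddc60_co.RadiusTwo.exists_s par Y X fun x hx => mem_image_of_mem _ hx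
  obtain ⟨b, f, hbq, hf, hff, hg, hgg⟩ := main v par (Fintype.card V - 1) (by omega) Y X
    (by
      intro h1
      have := hY1 v h1
      omega)
    (by
      intro h1
      exact hXv v h1 rfl)
    (by
      intro x hx h1
      have := hY1 x h1
      have := (memX x).1 hx
      omega)
    (fun x hx => mem_image_of_mem _ hx)
    (by
      intro x hx hxX
      have h1 := hd x hx
      have h2 := hv x
      rw [memX] at hxX
      have h3 : G.dist v (par x) = 0 := by omega
      exact ((hG.connected v (par x)).dist_eq_zero_iff.1 h3).symm)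
    s Y.card hs1 hs2
    (by
      rw [hXc] at hs3
      have h1 : (Y.card + 1) * {x : V | G.dist v x = 2}.ncard ≤
        ({y : V | G.Adj v y ∧ ∃ x, G.Adj y x ∧ G.dist v x = 2}.ncard + 1) * {x : V | G.dist v x = 2}.ncard :=
        Nat.mul_le_mul_right _ (by omega)
      omega)
  have hch : ∀ e : G.edgeSet, ∃ x, x ≠ v ∧ (e : Sym2 V) = s(x, par x) := by
    rintro ⟨e, he⟩
    induction e using Sym2.ind with
    | _ a b =>
      rcases hr.cov a b he with ⟨h1, h2⟩ | ⟨h1, h2⟩
      · exact ⟨a, h1, by rw [h2]⟩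
      · exact ⟨b, h1, by rw [h2]; exact Sym2.eq_swap⟩
  choose ch hch1 hch2 using hch
  obtain ⟨N, hN⟩ : ∃ N : ℕ, N = Fintype.card V := ⟨_, rfl⟩
  rw [← hN] at hf hg hV hbq ⊢
  have cN : ((N - 1 : ℕ) : ℤ) = N - 1 := by omega
  let F : V ⊕ G.edgeSet → ℕ := fun z => match z with
    | Sum.inl x => (f x + b + 1).toNat
    | Sum.inr e => (2 * N - b - (f (ch e) + f (par (ch e)))).toNat
  have F1 : ∀ x, (F (Sum.inl x) : ℤ) = f x + b + 1 := fun x => by
    have := hf x
    exact Int.toNat_of_nonneg (by omega)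
  have F2 : ∀ e, (F (Sum.inr e) : ℤ) = 2 * N - b - (f (ch e) + f (par (ch e))) := fun e => by
    have := hg _ (hch1 e)
    exact Int.toNat_of_nonneg (by omega)
  refine ⟨F, 2 * N + b + 2, ?_, ?_, ?_, ?_⟩
  · rintro (x | e) (y | e') h1
    · have h2 := F1 x
      have h3 := F1 y
      rw [h1, h3] at h2
      rw [hff x y (by omega)]
    · have h2 := F1 x
      have h3 := F2 e'
      have h4 := hf x
      have h5 := hg _ (hch1 e')
      rw [h1] at h2
      omega
    · have h2 := F2 e
      have h3 := F1 y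
      have h4 := hf y
      have h5 := hg _ (hch1 e)
      rw [h1] at h2
      omega
    · have h2 := F2 e
      have h3 := F2 e'
      rw [h1, h3] at h2
      have h4 := hgg _ _ (hch1 e) (hch1 e') (by omega)
      have h5 : e = e' := Subtype.ext (by rw [hch2 e, hch2 e', h4])
      rw [h5]
  · rintro (x | e)
    · have h2 := F1 x
      have := hf x
      omega
    · have h2 := F2 e
      have := hg _ (hch1 e)
      omega
  · intro x
    have h2 := F1 x
    have := hf x
    omega
  · intro u w h1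
    have h2 := F1 u
    have h3 := F1 w
    have h4 := F2 ⟨s(u, w), h1⟩
    have h5 := hch2 ⟨s(u, w), h1⟩
    rcases Sym2.eq_iff.1 h5 with ⟨h7, h8⟩ | ⟨h7, h8⟩
    · rw [← h8, ← h7] at h4
      omega
    · rw [← h7, ← h8] at h4
      omega

end Pool.Agent.Results.MP_138ac9_co.RadiusTwo
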